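import Pool.Agent.TH173.KR.Rules

/-!
# Kalai's rank conjecture for two more classes of 3-graphs

Let the vertices `[n]` be ordered by a permutation `σ` (`a` is before `b` if `σ a < σ b`) and let
`Γ` be a graph on them (given by the pairs with `Γ a b`, `a` before `b`). Two families of triples:

* `familyA σ Γ`: all `a, b, c` (in this order) such that `ac`, `bc` are edges of `Γ`, or `ab`, `ac`
  are not edges of `Γ`;
* `familyB σ Γ`: all `a, b, c` (in this order) such that `ac`, `bc` are edges of `Γ`, or none of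
  `ab`, `ac`, `bc` is an edge of `Γ`.

We prove Kalai's inequality `r_s(G) ≥ B_s(n)`, for all `1 ≤ s ≤ n / 3`, for every 3-graph `G` which
contains such a family `E` that meets every 4-set of vertices in a triple, and more generally
`r_s(G) + |E \ G| ≥ B_s(n)` for every `G` and every such `E`.

The lower bounds on the rank come from an inequality for all 3-graphs and all symmetric functions
`r` of pairs: `r_s(G)` is at least the sum over all pairs `x, y` of `min(s, t(x, y))`, where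
`t(x, y)` is the number of the edges `{x, w, y}` of `G` with `r(x, w), r(w, y) < r(x, y)`.
-/

set_option autoImplicit false
open Finset

namespace Pool.Agent.Results.MP_8317a8_co.OrderedRules

/-- Kalai's matrix `M_s(G)`. -/
noncomputable def kalaiMatrix (n s : ℕ) (G : Finset (Finset (Fin n))) :
    Matrix {e : Finset (Fin n) // e ∈ G} (Fin s × {p : Fin n × Fin n // p.1 < p.2})
      (FractionRing (MvPolynomial (Fin s × Fin n) ℚ)) :=
  Matrix.of (fun (e : {e : Finset (Fin n) // e ∈ G})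
      (c : Fin s × {p : Fin n × Fin n // p.1 < p.2}) =>
    if c.2.1.1 ∈ e.1 ∧ c.2.1.2 ∈ e.1 then
      ∑ w ∈ e.1 \ {c.2.1.1, c.2.1.2},
        (if c.2.1.1 < w ∧ w < c.2.1.2 then
          algebraMap (MvPolynomial (Fin s × Fin n) ℚ)
            (FractionRing (MvPolynomial (Fin s × Fin n) ℚ))
            (MvPolynomial.X (c.1, w))
        else
          -algebraMap (MvPolynomial (Fin s × Fin n) ℚ)
            (FractionRing (MvPolynomial (Fin s × Fin n) ℚ))
            (MvPolynomial.X (c.1, w)))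
    else (0 : FractionRing (MvPolynomial (Fin s × Fin n) ℚ)))

/-- Kalai's number `B_s(n)`. -/
def kalaiNumber (n s : ℕ) : ℤ :=
  ∑ i ∈ Icc 1 s, (((n - 2 * i).choose 2 : ℤ) - (i.choose 2 : ℤ))

/-- Every 4-set of vertices contains a triple of `E`. -/
def Covers {n : ℕ} (E : Finset (Finset (Fin n))) : Prop :=
  ∀ S : Finset (Fin n), S.card = 4 → ∃ e ∈ E, e ⊆ S

open scoped Classical in
/-- the triples `a, b, c` (in this order) with `Γ a c`, `Γ b c`, or neither `Γ a b` nor `Γ a c` -/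
noncomputable def familyA {n : ℕ} (σ : Equiv.Perm (Fin n)) (Γ : Fin n → Fin n → Prop) :
    Finset (Finset (Fin n)) :=
  univ.filter fun t => ∃ a b c : Fin n, σ a < σ b ∧ σ b < σ c ∧ t = {a, b, c} ∧
    ((Γ a c ∧ Γ b c) ∨ (¬ Γ a b ∧ ¬ Γ a c))

open scoped Classical in
/-- the triples `a, b, c` (in this order) with `Γ a c`, `Γ b c`, or none of `Γ a b`, `Γ a c`,
`Γ b c` -/
noncomputable def familyB {n : ℕ} (σ : Equiv.Perm (Fin n)) (Γ : Fin n → Fin n → Prop) :
    Finset (Finset (Fin n)) :=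
  univ.filter fun t => ∃ a b c : Fin n, σ a < σ b ∧ σ b < σ c ∧ t = {a, b, c} ∧
    ((Γ a c ∧ Γ b c) ∨ (¬ Γ a b ∧ ¬ Γ a c ∧ ¬ Γ b c))

/-- the vertices `w` for which `{x, w, y}` is an edge of `G` and `r x w`, `r w y` are less than
`r x y` -/
def tops {n : ℕ} (G : Finset (Finset (Fin n))) (r : Fin n → Fin n → ℕ) (x y : Fin n) :
    Finset (Fin n) :=
  univ.filter fun w => w ≠ x ∧ w ≠ y ∧ ({x, w, y} : Finset (Fin n)) ∈ G ∧
    r x w < r x y ∧ r w y < r x y

/-- the columns of the matrix -/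
def col {n s : ℕ} (hn : 1 < n) (i : Fin s) (q : Fin n × Fin n) :
    Fin s × {p : Fin n × Fin n // p.1 < p.2} :=
  if h : q.1 < q.2 then (i, ⟨q, h⟩) else
    (i, ⟨(⟨0, by omega⟩, ⟨1, by omega⟩), Fin.mk_lt_mk.2 (by omega)⟩)

theorem kalai_ent {n s : ℕ} (hn : 1 < n) (G : Finset (Finset (Fin n)))
    (e : {e : Finset (Fin n) // e ∈ G}) (i : Fin s) (q : Fin n × Fin n) (hq : q.1 < q.2) :
    kalaiMatrix n s G e (col hn i q) = Pool.Agent.TH173.KR.ent e.1 i q := by
  unfold col
  rw [dif_pos hq]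
  rfl

theorem ranks (n s : ℕ) (G : Finset (Finset (Fin n))) (r : Fin n → Fin n → ℕ)
    (hsym : ∀ x y, r x y = r y x) :
    ∑ x : Fin n, ∑ y ∈ univ.filter (fun y => x < y), min s (tops G r x y).card ≤
      (kalaiMatrix n s G).rank := by
  rcases Nat.lt_or_ge 1 n with hn | hn
  · refine Pool.Agent.TH173.KR.rank_pairs G (kalaiMatrix n s G) (col hn)
      (fun e i q hq => kalai_ent hn G e i q hq) r hsym (tops G r) ?_
    intro x y w hw
    exact (mem_filter.1 hw).2
  · have : ∑ x : Fin n, ∑ y ∈ univ.filter (fun y => x < y), min s (tops G r x y).card = 0 := by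
      apply sum_eq_zero
      intro x _
      apply sum_eq_zero
      intro y hy
      have := (mem_filter.1 hy).2
      rw [Fin.lt_def] at this
      have := x.2
      have := y.2
      omega
    rw [this]
    exact Nat.zero_le _

/-- the 4-sets -/
theorem cover4 {n : ℕ} (σ : Equiv.Perm (Fin n)) (p : Fin n → Fin n → Fin n → Prop)
    (E : Finset (Finset (Fin n)))
    (hE : ∀ t ∈ E, ∃ a b c : Fin n, σ a < σ b ∧ σ b < σ c ∧ t = {a, b, c} ∧ p a b c)
    (hcov : Covers E) {a b c d : Fin n} (hab : σ a < σ b) (hbc : σ b < σ c) (hcd : σ c < σ d) :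
    p a b c ∨ p a b d ∨ p a c d ∨ p b c d := by
  have nab : a ≠ b := by rintro rfl; exact lt_irrefl _ hab
  have nac : a ≠ c := by rintro rfl; exact lt_irrefl _ (hab.trans hbc)
  have nad : a ≠ d := by rintro rfl; exact lt_irrefl _ (hab.trans (hbc.trans hcd))
  have nbc : b ≠ c := by rintro rfl; exact lt_irrefl _ hbc
  have nbd : b ≠ d := by rintro rfl; exact lt_irrefl _ (hbc.trans hcd)
  have ncd : c ≠ d := by rintro rfl; exact lt_irrefl _ hcd
  obtain ⟨e, he, hsub⟩ := hcov {a, b, c, d} (by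
    rw [card_insert_of_notMem, card_insert_of_notMem, card_pair ncd]
    · simp [nbc, nbd]
    · simp [nab, nac, nad])
  obtain ⟨x, y, z, hxy, hyz, rfl, hp⟩ := hE e he
  have hx : x ∈ ({a, b, c, d} : Finset (Fin n)) := hsub (by simp)
  have hy : y ∈ ({a, b, c, d} : Finset (Fin n)) := hsub (by simp)
  have hz : z ∈ ({a, b, c, d} : Finset (Fin n)) := hsub (by simp)
  simp only [mem_insert, mem_singleton] at hx hy hz
  have l1 : (σ a).val < (σ b).val := hab
  have l2 : (σ b).val < (σ c).val := hbc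
  have l3 : (σ c).val < (σ d).val := hcd
  have l4 : (σ x).val < (σ y).val := hxy
  have l5 : (σ y).val < (σ z).val := hyz
  rcases hx with rfl | rfl | rfl | rfl <;> rcases hy with rfl | rfl | rfl | rfl <;>
    rcases hz with rfl | rfl | rfl | rfl <;>
    first
    | exact Or.inl hp
    | exact Or.inr (Or.inl hp)
    | exact Or.inr (Or.inr (Or.inl hp))
    | exact Or.inr (Or.inr (Or.inr hp))
    | (exfalso; omega)

theorem boundA {n s : ℕ} (hs1 : 1 ≤ s) (hsn : s ≤ n / 3) (σ : Equiv.Perm (Fin n))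
    (Γ : Fin n → Fin n → Prop) (hcov : Covers (familyA σ Γ)) (G : Finset (Finset (Fin n))) :
    kalaiNumber n s ≤ ((kalaiMatrix n s G).rank : ℤ) + ((familyA σ Γ \ G).card : ℤ) := by
  classical
  have hn : 1 < n := by omega
  refine Pool.Agent.TH173.KR.kalai46 hs1 hsn (familyA σ Γ) G σ (kalaiMatrix n s G) (col hn)
    (fun e i q hq => kalai_ent hn G e i q hq) Γ ?_ ?_
  · intro a b c hab hbc h
    exact mem_filter.2 ⟨mem_univ _, a, b, c, hab, hbc, rfl, h⟩
  · intro a b c d hab hbc hcd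
    exact cover4 σ (fun a b c => (Γ a c ∧ Γ b c) ∨ (¬ Γ a b ∧ ¬ Γ a c)) (familyA σ Γ)
      (fun t ht => (mem_filter.1 ht).2) hcov hab hbc hcd

theorem boundB {n s : ℕ} (hs1 : 1 ≤ s) (hsn : s ≤ n / 3) (σ : Equiv.Perm (Fin n))
    (Γ : Fin n → Fin n → Prop) (hcov : Covers (familyB σ Γ)) (G : Finset (Finset (Fin n))) :
    kalaiNumber n s ≤ ((kalaiMatrix n s G).rank : ℤ) + ((familyB σ Γ \ G).card : ℤ) := by
  classical
  have hn : 1 < n := by omega
  refine Pool.Agent.TH173.KR.kalai62 hs1 hsn (familyB σ Γ) G σ (kalaiMatrix n s G) (col hn)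
    (fun e i q hq => kalai_ent hn G e i q hq) Γ ?_ ?_
  · intro a b c hab hbc h
    exact mem_filter.2 ⟨mem_univ _, a, b, c, hab, hbc, rfl, h⟩
  · intro a b c d hab hbc hcd
    exact cover4 σ (fun a b c => (Γ a c ∧ Γ b c) ∨ (¬ Γ a b ∧ ¬ Γ a c ∧ ¬ Γ b c)) (familyB σ Γ)
      (fun t ht => (mem_filter.1 ht).2) hcov hab hbc hcd

theorem result :
    (∀ (n s : ℕ) (G : Finset (Finset (Fin n))) (r : Fin n → Fin n → ℕ),
      (∀ x y, r x y = r y x) →
      ∑ x : Fin n, ∑ y ∈ univ.filter (fun y => x < y), min s (tops G r x y).card ≤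
        (kalaiMatrix n s G).rank) ∧
    (∀ n s : ℕ, 1 ≤ s → s ≤ n / 3 → ∀ (σ : Equiv.Perm (Fin n)) (Γ : Fin n → Fin n → Prop)
      (E : Finset (Finset (Fin n))), (E = familyA σ Γ ∨ E = familyB σ Γ) → Covers E →
      (∀ G : Finset (Finset (Fin n)),
        kalaiNumber n s ≤ ((kalaiMatrix n s G).rank : ℤ) + ((E \ G).card : ℤ)) ∧
      (∀ G : Finset (Finset (Fin n)), E ⊆ G →
        kalaiNumber n s ≤ ((kalaiMatrix n s G).rank : ℤ))) := by
  refine ⟨fun n s G r hr => ranks n s G r hr, fun n s h1 h2 σ Γ E hE hcov => ?_⟩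
  have h : ∀ G : Finset (Finset (Fin n)),
      kalaiNumber n s ≤ ((kalaiMatrix n s G).rank : ℤ) + ((E \ G).card : ℤ) := by
    intro G
    rcases hE with rfl | rfl
    · exact boundA h1 h2 σ Γ hcov G
    · exact boundB h1 h2 σ Γ hcov G
  refine ⟨h, fun G hG => ?_⟩
  have h3 := h G
  rw [sdiff_eq_empty_iff_subset.2 hG, card_empty] at h3
  simpa using h3

end Pool.Agent.Results.MP_8317a8_co.OrderedRules
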