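import Pool.Agent.TH173.KR.Main

/-!
# Kalai's rank conjecture for 3-graphs with a suitable ordering of the vertices

Let the vertices of a 3-graph `G` on `[n]` be ordered by a permutation `σ` (`a` is before `b` if
`σ a < σ b`). A pair `a, c` (`a` before `c`) is *closed* if `{a, c, d}` belongs to `G` for every
vertex `d` after `c`. A triple `{a, b, c}` outside `G` (`a` before `b` before `c`) is *active* if
neither `{a, c}` nor `{b, c}` is closed. We prove, for all `1 ≤ s ≤ n / 3`, every `G` and every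
ordering,

  `r_s(G) + #(active triples) ≥ B_s(n)`.

If there is no active triple, then every 4-set contains an edge of `G`, and `r_s(G) ≥ B_s(n)`.
-/

set_option autoImplicit false
open Finset

namespace Pool.Agent.Results.MP_8317a8_co.OrderedVertices

/-- Kalai's matrix `M_s(G)`. -/
noncomputable def kalaiMatrix (n s : ℕ) (G : Finset (Finset (Fin n))) :
    Matrix {e : Finset (Fin n) // e ∈ G} (Fin s × {p : Fin n × Fin n // p.1 < p.2})
      (FractionRing (MvPolynomial (Fin s × Fin n) ℚ)) :=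
  Matrix.of (fun (e : {e : Finset (Fin n) // e ∈ G})
      (c : Fin s × {p : Fin n × Fin n // p.1 < p.2}) =>
    if c.2.1.1 ∈ e.1 ∧ c.2.1.2 ∈ e.1 then
      ∑ w ∈ e.1 \ {c.2.1.1, c.2.1.2},
        (if c.2.1.1 < w ∧ w < c.2.1.2 then
          algebraMap (MvPolynomial (Fin s × Fin n) ℚ)
            (FractionRing (MvPolynomial (Fin s × Fin n) ℚ))
            (MvPolynomial.X (c.1, w))
        else
          -algebraMap (MvPolynomial (Fin s × Fin n) ℚ)
            (FractionRing (MvPolynomial (Fin s × Fin n) ℚ))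
            (MvPolynomial.X (c.1, w)))
    else (0 : FractionRing (MvPolynomial (Fin s × Fin n) ℚ)))

/-- Kalai's number `B_s(n)`. -/
def kalaiNumber (n s : ℕ) : ℤ :=
  ∑ i ∈ Icc 1 s, (((n - 2 * i).choose 2 : ℤ) - (i.choose 2 : ℤ))

/-- The pair `{a, c}` is closed: every vertex `d` after `c` forms an edge with `a` and `c`. -/
def Closed {n : ℕ} (σ : Equiv.Perm (Fin n)) (G : Finset (Finset (Fin n))) (a c : Fin n) : Prop :=
  ∀ d : Fin n, σ c < σ d → ({a, c, d} : Finset (Fin n)) ∈ G

/-- `t` is an active triple: `t = {a, b, c}`, with `a` before `b` before `c`, is not an edge and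
neither of the pairs `{a, c}`, `{b, c}` is closed. -/
def Active {n : ℕ} (σ : Equiv.Perm (Fin n)) (G : Finset (Finset (Fin n)))
    (t : Finset (Fin n)) : Prop :=
  ∃ a b c : Fin n, σ a < σ b ∧ σ b < σ c ∧ t = {a, b, c} ∧ t ∉ G ∧
    ¬ Closed σ G a c ∧ ¬ Closed σ G b c

open scoped Classical in
/-- The set of active triples. -/
noncomputable def activeTriples {n : ℕ} (σ : Equiv.Perm (Fin n)) (G : Finset (Finset (Fin n))) :
    Finset (Finset (Fin n)) :=
  univ.filter (Active σ G)

open scoped Classical in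
/-- The family of a graph `Γ` (given by the pairs with `Γ a b`, `a` before `b`): all triples
`{a, b, c}`, `a` before `b` before `c`, such that `ab` is not an edge of `Γ`, or `ac` and `bc` are
edges of `Γ`. -/
noncomputable def graphFamily {n : ℕ} (σ : Equiv.Perm (Fin n)) (Γ : Fin n → Fin n → Prop) :
    Finset (Finset (Fin n)) :=
  univ.filter fun t => ∃ a b c : Fin n, σ a < σ b ∧ σ b < σ c ∧ t = {a, b, c} ∧
    (¬ Γ a b ∨ (Γ a c ∧ Γ b c))

theorem bound {n s : ℕ} (hs1 : 1 ≤ s) (hsn : s ≤ n / 3) (G : Finset (Finset (Fin n)))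
    (σ : Equiv.Perm (Fin n)) :
    kalaiNumber n s ≤ ((kalaiMatrix n s G).rank : ℤ) + ((activeTriples σ G).card : ℤ) := by
  classical
  have hpos : 0 < n := by omega
  refine Pool.Agent.TH173.KR.kalai hs1 hsn G σ (kalaiMatrix n s G) (fun i q =>
    if h : q.1 < q.2 then (i, ⟨q, h⟩) else
      (i, ⟨(⟨0, by omega⟩, ⟨1, by omega⟩), Fin.mk_lt_mk.2 (by omega)⟩)) ?_
  intro e i q hq
  simp only [dif_pos hq]
  rfl

theorem mem_graphFamily {n : ℕ} (σ : Equiv.Perm (Fin n)) (Γ : Fin n → Fin n → Prop)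
    {a b c : Fin n} (hab : σ a < σ b) (hbc : σ b < σ c) :
    ({a, b, c} : Finset (Fin n)) ∈ graphFamily σ Γ ↔ (¬ Γ a b ∨ (Γ a c ∧ Γ b c)) := by
  classical
  unfold graphFamily
  rw [mem_filter]
  constructor
  · rintro ⟨-, a', b', c', h1, h2, h, h3⟩
    obtain ⟨rfl, rfl, rfl⟩ := Pool.Agent.TH173.KR.perm_inj σ hab hbc h1 h2 h
    exact h3
  · intro h
    exact ⟨mem_univ _, a, b, c, hab, hbc, rfl, h⟩

theorem card_mem_graphFamily {n : ℕ} (σ : Equiv.Perm (Fin n)) (Γ : Fin n → Fin n → Prop)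
    {t : Finset (Fin n)} (ht : t ∈ graphFamily σ Γ) : t.card = 3 := by
  classical
  unfold graphFamily at ht
  obtain ⟨-, a, b, c, hab, hbc, rfl, -⟩ := mem_filter.1 ht
  rw [card_eq_three]
  refine ⟨a, b, c, ?_, ?_, ?_, rfl⟩
  · rintro rfl
    exact lt_irrefl _ hab
  · rintro rfl
    exact lt_irrefl _ (hab.trans hbc)
  · rintro rfl
    exact lt_irrefl _ hbc

theorem active_graphFamily {n : ℕ} (σ : Equiv.Perm (Fin n)) (Γ : Fin n → Fin n → Prop) :
    activeTriples σ (graphFamily σ Γ) = ∅ := by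
  classical
  rw [eq_empty_iff_forall_notMem]
  intro t ht
  unfold activeTriples at ht
  obtain ⟨-, a, b, c, hab, hbc, rfl, h1, h2, h3⟩ := mem_filter.1 ht
  rw [mem_graphFamily σ Γ hab hbc] at h1
  push Not at h1
  apply h2
  intro d hcd
  rw [mem_graphFamily σ Γ (hab.trans hbc) hcd]
  left
  intro h4
  apply h3
  intro d' hcd'
  rw [mem_graphFamily σ Γ hbc hcd']
  left
  exact h1.2 h4

theorem exists_sorted {n : ℕ} (σ : Equiv.Perm (Fin n)) {e : Finset (Fin n)} (he : e.card = 3) :
    ∃ a b c : Fin n, σ a < σ b ∧ σ b < σ c ∧ e = {a, b, c} := by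
  classical
  have h : (e.image σ).card = 3 := by rw [card_image_of_injective _ σ.injective, he]
  obtain ⟨a, b, c, hab, hbc, h1⟩ := Pool.Agent.TH173.OE.exists_sorted h
  refine ⟨σ.symm a, σ.symm b, σ.symm c, ?_, ?_, ?_⟩
  · simpa using hab
  · simpa using hbc
  · have h2 := congrArg (fun t : Finset (Fin n) => t.image σ.symm) h1
    simp only [image_insert, image_singleton, image_image, Equiv.symm_comp_self, image_id] at h2
    exact h2

theorem covers {n : ℕ} (σ : Equiv.Perm (Fin n)) (G : Finset (Finset (Fin n)))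
    (hG : activeTriples σ G = ∅) (F : Finset (Fin n)) (hF : F.card = 4) : ∃ e ∈ G, e ⊆ F := by
  classical
  obtain ⟨d, hd, hmax⟩ := F.exists_max_image σ (by rw [← card_pos]; omega)
  have h3 : (F.erase d).card = 3 := by rw [card_erase_of_mem hd]; omega
  obtain ⟨a, b, c, hab, hbc, h⟩ := exists_sorted σ h3
  have ha : a ∈ F.erase d := by rw [h]; simp
  have hb : b ∈ F.erase d := by rw [h]; simp
  have hc : c ∈ F.erase d := by rw [h]; simp
  have hcd : σ c < σ d := lt_of_le_of_ne (hmax c (mem_of_mem_erase hc))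
    (fun h => ne_of_mem_erase hc (σ.injective h))
  by_cases h0 : ({a, b, c} : Finset (Fin n)) ∈ G
  · refine ⟨_, h0, ?_⟩
    rw [← h]
    exact erase_subset _ _
  · have h2 : Closed σ G a c ∨ Closed σ G b c := by
      by_contra h3
      push Not at h3
      have : ({a, b, c} : Finset (Fin n)) ∈ activeTriples σ G :=
        mem_filter.2 ⟨mem_univ _, a, b, c, hab, hbc, rfl, h0, h3.1, h3.2⟩
      rw [hG] at this
      exact absurd this (notMem_empty _)
    rcases h2 with h2 | h2
    · refine ⟨_, h2 d hcd, ?_⟩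
      intro x hx
      simp only [mem_insert, mem_singleton] at hx
      rcases hx with rfl | rfl | rfl
      · exact mem_of_mem_erase ha
      · exact mem_of_mem_erase hc
      · exact hd
    · refine ⟨_, h2 d hcd, ?_⟩
      intro x hx
      simp only [mem_insert, mem_singleton] at hx
      rcases hx with rfl | rfl | rfl
      · exact mem_of_mem_erase hb
      · exact mem_of_mem_erase hc
      · exact hd

/-- the graph of Turán's construction -/
def tg (n : ℕ) (a b : Fin n) : Prop := Pool.Agent.TH173.OE.gr (n / 3) ((n + 1) / 3) a b = true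

theorem card_tg (n : ℕ) :
    ((graphFamily (Equiv.refl (Fin n)) (tg n)).card : ℤ) = kalaiNumber n (n / 3) := by
  classical
  have h : (Pool.Agent.TH173.OE.hset (tg n)).card + Pool.Agent.TH173.OE.turan n = n.choose 3 :=
    Pool.Agent.TH173.OE.sharp n
  have h1 : graphFamily (Equiv.refl (Fin n)) (tg n) = ((univ : Finset (Fin n)).powersetCard 3) \
      Pool.Agent.TH173.OE.hset (tg n) := by
    ext t
    rw [mem_sdiff, mem_powersetCard]
    constructor
    · intro ht
      have h3 := card_mem_graphFamily _ (tg n) ht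
      refine ⟨⟨subset_univ _, h3⟩, ?_⟩
      obtain ⟨a, b, c, hab, hbc, rfl⟩ := Pool.Agent.TH173.OE.exists_sorted h3
      rw [Pool.Agent.TH173.OE.mem_hset (tg n) hab hbc]
      rw [mem_graphFamily (Equiv.refl (Fin n)) (tg n) hab hbc] at ht
      tauto
    · rintro ⟨⟨-, h3⟩, ht⟩
      obtain ⟨a, b, c, hab, hbc, rfl⟩ := Pool.Agent.TH173.OE.exists_sorted h3
      rw [Pool.Agent.TH173.OE.mem_hset (tg n) hab hbc] at ht
      rw [mem_graphFamily (Equiv.refl (Fin n)) (tg n) hab hbc]
      tauto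
  have h2 : Pool.Agent.TH173.OE.hset (tg n) ⊆ (univ : Finset (Fin n)).powersetCard 3 := by
    intro t ht
    exact mem_powersetCard.2 ⟨subset_univ _, Pool.Agent.TH173.OE.card_of_mem_hset (tg n) ht⟩
  have h4 := card_sdiff_add_card_eq_card h2
  rw [← h1, card_powersetCard, card_univ, Fintype.card_fin] at h4
  have h5 := Pool.Agent.TH173.OE.bnd_turan n
  have h6 := Pool.Agent.TH173.KR.bnd_kalai n (n / 3) (by omega)
  unfold kalaiNumber
  zify at h h4 h5
  linarith

theorem result :
    (∀ n s : ℕ, 1 ≤ s → s ≤ n / 3 → ∀ (G : Finset (Finset (Fin n))) (σ : Equiv.Perm (Fin n)),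
      kalaiNumber n s ≤ ((kalaiMatrix n s G).rank : ℤ) + ((activeTriples σ G).card : ℤ)) ∧
    (∀ (n : ℕ) (G : Finset (Finset (Fin n))) (σ : Equiv.Perm (Fin n)), activeTriples σ G = ∅ →
      (∀ S : Finset (Fin n), S.card = 4 → ∃ e ∈ G, e ⊆ S) ∧
      ∀ s : ℕ, 1 ≤ s → s ≤ n / 3 → kalaiNumber n s ≤ ((kalaiMatrix n s G).rank : ℤ)) ∧
    (∀ (n : ℕ) (σ : Equiv.Perm (Fin n)) (Γ : Fin n → Fin n → Prop),
      activeTriples σ (graphFamily σ Γ) = ∅) ∧
    (∀ n : ℕ, 3 ≤ n → ∃ (G : Finset (Finset (Fin n))) (σ : Equiv.Perm (Fin n)),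
      (∀ e ∈ G, e.card = 3) ∧ activeTriples σ G = ∅ ∧ (G.card : ℤ) = kalaiNumber n (n / 3) ∧
      ((kalaiMatrix n (n / 3) G).rank : ℤ) = kalaiNumber n (n / 3)) := by
  refine ⟨fun n s h1 h2 G σ => bound h1 h2 G σ, fun n G σ hG => ⟨covers σ G hG, ?_⟩,
    fun n σ Γ => active_graphFamily σ Γ, fun n hn => ?_⟩
  · intro s h1 h2
    have h := bound h1 h2 G σ
    rw [hG, card_empty] at h
    simpa using h
  · have h0 := active_graphFamily (Equiv.refl (Fin n)) (tg n)
    refine ⟨graphFamily (Equiv.refl (Fin n)) (tg n), Equiv.refl _,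
      fun e he => card_mem_graphFamily _ _ he, h0, card_tg n, ?_⟩
    have h := bound (n := n) (s := n / 3) (by omega) le_rfl
      (graphFamily (Equiv.refl (Fin n)) (tg n)) (Equiv.refl _)
    rw [h0, card_empty] at h
    apply le_antisymm
    · rw [← card_tg n]
      have h3 := (kalaiMatrix n (n / 3)
        (graphFamily (Equiv.refl (Fin n)) (tg n))).rank_le_card_height
      rw [Fintype.card_coe] at h3
      exact_mod_cast h3
    · simpa using h

end Pool.Agent.Results.MP_8317a8_co.OrderedVertices
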